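import Pool.Agent.X145.Hole.Main

/-!
# Hole probabilities of the Gaussian entire function in thin rectangles

For the rectangle `K_δ = [0,1] × [-δ,δ]` the hole exponent satisfies
`p_{H,K_δ}(f;r) ≤ 121 δ² r⁴` for all large `r`, while the capacity of `K_δ` is at least `e⁻²` for every
`δ`. Hence the conjectured asymptotics `r⁻⁴ p_{H,K}(f;r) → (e²/4) c(K)⁴` fails for thin rectangles.
-/

set_option autoImplicit false
open MeasureTheory Filter Topology Set
open Pool.Agent.X145.Hole

namespace Pool.Agent.Results.MP_629fb1_pr.ThinRectangles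

/-- The conjectured asymptotics of the hole exponent for the set `K`. -/
def HoleAsymptotics (K : Set ℂ) : Prop :=
  Tendsto (fun r : ℝ => holeExponent K r / r ^ 4) atTop (𝓝 (Real.exp 2 / 4 * capacity K ^ 4))

/-- **Main theorem.** (i) For all `0 < δ ≤ 1`, eventually `p_{H,K_δ}(f;r) ≤ 121 δ² r⁴`, and the
capacity of the rectangle `K_δ` is at least `e⁻²`. (ii) The conjectured asymptotics fails for every
rectangle `K_δ` with `0 < δ ≤ 1/1000`. (iii) Hence it is not true that the conjectured asymptotics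
holds for every connected compact set with non-empty interior. -/
theorem result :
    (∀ δ : ℝ, 0 < δ → δ ≤ 1 →
      (∀ᶠ r : ℝ in atTop, holeExponent (rect δ) r ≤ 121 * δ ^ 2 * r ^ 4) ∧
        Real.exp (-2) ≤ capacity (rect δ)) ∧
    (∀ δ : ℝ, 0 < δ → δ ≤ 1 / 1000 → ¬ HoleAsymptotics (rect δ)) ∧
    ¬ ∀ K : Set ℂ, IsCompact K → IsConnected K → (interior K).Nonempty → HoleAsymptotics K := by
  have h2 : ∀ δ : ℝ, 0 < δ → δ ≤ 1 / 1000 → ¬ HoleAsymptotics (rect δ) := by
    intro δ hδ0 hδ1 hlim
    have hcap := capacity_low δ hδ0.le (by linarith)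
    have hev := hole_eventually δ hδ0 (by linarith)
    have hle : ∀ᶠ r : ℝ in atTop, holeExponent (rect δ) r / r ^ 4 ≤ 121 * δ ^ 2 := by
      filter_upwards [hev, eventually_gt_atTop 0] with r hr hr0
      rw [div_le_iff₀ (by positivity)]
      exact hr
    have h3 := le_of_tendsto hlim hle
    have h4 : Real.exp (-2) ^ 4 ≤ capacity (rect δ) ^ 4 := pow_le_pow_left₀ (Real.exp_pos _).le hcap 4
    have h5 : Real.exp 2 / 4 * Real.exp (-2) ^ 4 = Real.exp (-6) / 4 := by
      rw [← Real.exp_nat_mul, div_mul_eq_mul_div, ← Real.exp_add]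
      norm_num
    have h6 : Real.exp (-6) / 4 ≤ 121 * δ ^ 2 := by
      rw [← h5]
      exact (mul_le_mul_of_nonneg_left h4 (by positivity)).trans h3
    have h7 : (1 : ℝ) / 1000 ≤ Real.exp (-6) := by
      have h8 : Real.exp 6 ≤ 1000 := by
        have h9 := Real.exp_one_lt_d9
        have e : Real.exp 6 = Real.exp 1 ^ 6 := by
          rw [← Real.exp_nat_mul]
          norm_num
        rw [e]
        calc Real.exp 1 ^ 6 ≤ (2.7182818286 : ℝ) ^ 6 := pow_le_pow_left₀ (Real.exp_pos _).le h9.le 6
          _ ≤ 1000 := by norm_num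
      rw [Real.exp_neg, ← one_div]
      exact one_div_le_one_div_of_le (Real.exp_pos _) h8
    nlinarith
  refine ⟨fun δ hδ0 hδ1 => ⟨hole_eventually δ hδ0 hδ1, capacity_low δ hδ0.le hδ1⟩, h2, fun H => ?_⟩
  exact h2 (1 / 1000) (by norm_num) le_rfl (H _ (rect_compact _) (rect_connected _ (by norm_num))
    (rect_interior _ (by norm_num)))

end Pool.Agent.Results.MP_629fb1_pr.ThinRectangles
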